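import Pool.Agent.Helper1.T1.Goals

/-!
Packet T1-RHO (project T1 of helper1, MP_d3128a_ag): the local series at a node.
-/

set_option autoImplicit false

noncomputable section

namespace Pool.Agent.Helper4.T1.RHO

open PowerSeries

variable {F : Type} [Field F] [CharZero F]

lemma bin_pow (r : ℚ) (n : ℕ) :
    (binomialSeries F r) ^ n = binomialSeries F ((n : ℚ) * r) := by
  induction n with
  | zero => simp
  | succ n ih =>
    rw [pow_succ, ih, ← binomialSeries_add]
    congr 1
    push_cast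
    ring

/-- a power series with constant term `1` has an `n`-th root -/
lemma root (n : ℕ) (hn : n ≠ 0) (g : PowerSeries F) (hg : constantCoeff g = 0) :
    ∃ h : PowerSeries F, h ^ n = 1 + g := by
  have hs : HasSubst g := HasSubst.of_constantCoeff_zero' hg
  have hb : (binomialSeries F ((1 : ℚ) / n)) ^ n = (1 + X : PowerSeries F) := by
    rw [bin_pow]
    have h1 : (n : ℚ) * (1 / n) = ((1 : ℕ) : ℚ) := by
      have : (n : ℚ) ≠ 0 := by exact_mod_cast hn
      field_simp
      norm_num
    rw [h1, binomialSeries_nat, pow_one]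
  refine ⟨(binomialSeries F ((1 : ℚ) / n)).subst g, ?_⟩
  rw [← subst_pow hs, hb, subst_add hs, subst_X hs]
  congr 1
  rw [← coe_substAlgHom hs, map_one]

theorem t : Pool.Agent.Helper1.T1.S_RHO := by
  intro F _ _ k hk
  have hN : k * (k - 1) ≠ 0 := by
    have h1 : k ≠ 0 := by omega
    have h2 : k - 1 ≠ 0 := by omega
    exact mul_ne_zero h1 h2
  obtain ⟨h, hh⟩ := root (F := F) 2 two_ne_zero (C ((1 : F) / 4) * X ^ 2) (by simp)
  -- a root `s` of `s ^ 2 = X s + 1`
  have h2 : (2 : F) ≠ 0 := two_ne_zero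
  have hC2 : (C ((1 : F) / 2)) * 2 = (1 : PowerSeries F) := by
    have : (2 : PowerSeries F) = C (2 : F) := (map_ofNat C 2).symm
    rw [this, ← map_mul]
    rw [one_div, inv_mul_cancel₀ h2, map_one]
  have hC4 : (C ((1 : F) / 2)) ^ 2 = (C ((1 : F) / 4) : PowerSeries F) := by
    rw [← map_pow]
    congr 1
    norm_num
  obtain ⟨s, hs1, hs2⟩ : ∃ s : PowerSeries F, s ^ 2 = X * s + 1 ∧ constantCoeff s = 1 := by
    have key : ∀ e : PowerSeries F, e ^ 2 = 1 + C ((1 : F) / 4) * X ^ 2 →
        (C ((1 : F) / 2) * X + e) ^ 2 = X * (C ((1 : F) / 2) * X + e) + 1 := by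
      intro e he
      have h5 : (C ((1 : F) / 2) * X + e) ^ 2
          = (C ((1 : F) / 2)) ^ 2 * X ^ 2 + (C ((1 : F) / 2) * 2) * (X * e) + e ^ 2 := by ring
      rw [h5, he, hC2, hC4]
      have h6 : (C ((1 : F) / 2) : PowerSeries F) = C ((1 : F) / 4) + C ((1 : F) / 4) := by
        rw [← map_add]
        congr 1
        norm_num
      rw [h6]
      ring
    have hc : (constantCoeff h) ^ 2 = 1 := by
      have := congrArg (constantCoeff (R := F)) hh
      simpa using this
    have hc' : constantCoeff h * constantCoeff h = 1 := by rw [← sq]; exact hc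
    rcases (mul_self_eq_one_iff.mp hc') with h1 | h1
    · exact ⟨_, key h hh, by simp [h1]⟩
    · refine ⟨_, key (-h) (by rw [neg_sq, hh]), by simp [h1]⟩
  obtain ⟨r, hr⟩ := root (F := F) (k * (k - 1)) hN (s - 1) (by simp [hs2])
  have hr' : r ^ (k * (k - 1)) = s := by rw [hr]; ring
  have hr0 : (constantCoeff r) ^ (k * (k - 1)) = 1 := by
    have := congrArg (constantCoeff (R := F)) hr'
    simpa [hs2] using this
  have hr1 : constantCoeff r ≠ 0 := by
    intro h0
    rw [h0, zero_pow hN] at hr0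
    exact zero_ne_one hr0
  refine ⟨C ((constantCoeff r)⁻¹) * r, ?_, ?_, ?_⟩
  · simp [hr1]
  · intro h1
    have e1 : (C ((constantCoeff r)⁻¹) * r) ^ (2 * (k * (k - 1)))
        = 1 + X * (C ((constantCoeff r)⁻¹) * r) ^ (k * (k - 1)) := by
      rw [pow_mul', mul_pow, hr', ← map_pow, inv_pow, hr0, inv_one, map_one, one_mul, hs1]
      ring
    have e2 := congrArg (coeff (R := F) 1) e1
    rw [coeff_one_pow, h1] at e2
    have e3 : coeff 1 (X * (C ((constantCoeff r)⁻¹) * r) ^ (k * (k - 1))) = (1 : F) := by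
      rw [show (1 : ℕ) = 0 + 1 from rfl, coeff_succ_X_mul, coeff_zero_eq_constantCoeff_apply,
        map_pow, map_mul, constantCoeff_C, inv_mul_cancel₀ hr1, one_pow]
    rw [map_add, e3, coeff_one] at e2
    simp at e2
  · rw [pow_mul', mul_pow, hr', ← map_pow, inv_pow, hr0, inv_one, map_one, one_mul, hs1]
    ring

end Pool.Agent.Helper4.T1.RHO
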